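import Pool.Agent.Run7.h520.BU.I

set_option autoImplicit false

/-!
# Piece `BAS` of helper520's project for MP_ba14eb_lc : easy facts on `Fr.F` and `Fr.ty`
-/

namespace Run7.h255.BU
open Run7.h520.BU

theorem finite_ty (n : ℕ) : ∀ j, Finite (Ty n j)
  | 0 => inferInstanceAs (Finite Prop)
  | j + 1 => by
      have := finite_ty n j
      exact inferInstanceAs (Finite (Set (Ty n j × Fin (n + 1))))

theorem F_succ_lt {N : Type} (X : Fr N) {H i : ℕ} (h : i + 1 < H) : X.F H (i + 1) = X.E i := by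
  funext x y; simp [Fr.F, h]

theorem F_succ_ge {N : Type} (X : Fr N) {H i : ℕ} (h : ¬ i + 1 < H) :
    X.F H (i + 1) = fun x y => x = y := by
  funext x y; simp [Fr.F, h]

theorem F_equiv {N : Type} {X : Fr N} (hX : X.Ok) (H : ℕ) : ∀ i, Equivalence (X.F H i)
  | 0 => ⟨fun _ => trivial, fun _ => trivial, fun _ _ => trivial⟩
  | i + 1 => by
    by_cases h : i + 1 < H
    · rw [F_succ_lt X h]; exact hX.eqv i
    · rw [F_succ_ge X h]; exact eq_equivalence

theorem F_dec {N : Type} {X : Fr N} (hX : X.Ok) (H : ℕ) :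
    ∀ i x y, X.F H (i + 1) x y → X.F H i x y
  | 0, _, _, _ => trivial
  | i + 1, x, y, h => by
    by_cases h1 : i + 1 + 1 < H
    · rw [F_succ_lt X h1] at h
      rw [F_succ_lt X (by omega : i + 1 < H)]
      exact hX.nest i x y h
    · rw [F_succ_ge X h1] at h
      have : x = y := h
      subst this
      exact (F_equiv hX H (i + 1)).refl x

theorem F_top {N : Type} {X : Fr N} {H : ℕ} (hH : 1 ≤ H) (x y : N) : X.F H H x y ↔ x = y := by
  obtain ⟨k, rfl⟩ : ∃ k, H = k + 1 := ⟨H - 1, by omega⟩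
  rw [F_succ_ge X (by omega)]

theorem F_le {N : Type} {X : Fr N} (hX : X.Ok) (H : ℕ) {i j : ℕ} (hij : i ≤ j) {x y : N}
    (h : X.F H j x y) : X.F H i x y := by
  induction j, hij using Nat.le_induction with
  | base => exact h
  | succ j hj ih => exact ih (F_dec hX H j x y h)

/-- The type of depth `j + 1` as a set. -/
def tys {N : Type} (X : Fr N) (n H j : ℕ) (x : N) : Set (Ty n j × Fin (n + 1)) :=
  X.ty n H (j + 1) x

theorem mem_tys {N : Type} {X : Fr N} {n H j : ℕ} {x : N} {p : Ty n j × Fin (n + 1)} :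
    p ∈ tys X n H j x ↔ ∃ y : Fin p.2 → N,
      (∀ a, X.F H (H - (j + 1)) x (y a)) ∧ (∀ a b, a ≠ b → ¬ X.F H (H - j) (y a) (y b)) ∧
      ∀ a, X.ty n H j (y a) = p.1 := Iff.rfl

theorem ty_mono {N : Type} {X : Fr N} (hX : X.Ok) (n H j : ℕ) {x y : N}
    (h : X.F H (H - (j + 1)) x y) : tys X n H j x ⊆ tys X n H j y := by
  rintro p ⟨z, h1, h2, h3⟩
  exact ⟨z, fun a => (F_equiv hX H _).trans ((F_equiv hX H _).symm h) (h1 a), h2, h3⟩

theorem ty_class {N : Type} {X : Fr N} (hX : X.Ok) {n H : ℕ} (hH : 1 ≤ H) (j : ℕ) {x y : N}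
    (h : X.F H (H - j) x y) : X.ty n H j x = X.ty n H j y := by
  cases j with
  | zero =>
    have : x = y := (F_top hH x y).1 h
    rw [this]
  | succ j =>
    exact Set.Subset.antisymm (ty_mono hX n H j h) (ty_mono hX n H j ((F_equiv hX H _).symm h))

/-- Piece `BAS`. -/
theorem bas : S_BAS :=
  ⟨finite_ty, fun _ _ hX H hH => ⟨F_equiv hX H, F_dec hX H, F_top hH,
    fun _ j _ _ _ h => ty_class hX hH j h⟩⟩

end Run7.h255.BU
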