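import Pool.Agent.Run7.h255.BU.BAS

set_option autoImplicit false

/-!
# Piece `STEP` of helper520's project for MP_ba14eb_lc : one step of the game
-/

namespace Run7.h255.BU
open Run7.h520.BU

theorem descend {N N' : Type} {X : Fr N} {X' : Fr N'} (hX : X.Ok) (hX' : X'.Ok) {n H : ℕ}
    (hH : 1 ≤ H) (hn : 1 ≤ n) :
    ∀ j : ℕ, j ≤ H → ∀ (x : N) (y' : N'), X.ty n H j x = X'.ty n H j y' →
      ∃ x' : N', X'.F H (H - j) y' x' ∧ ∀ i ≤ j, X.ty n H i x = X'.ty n H i x'
  | 0, _, x, y', h => ⟨y', (F_equiv hX' H _).refl y', fun i hi => by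
      obtain rfl : i = 0 := by omega
      exact h⟩
  | j + 1, hj, x, y', h => by
      have h1 : (X.ty n H j x, (⟨1, by omega⟩ : Fin (n + 1))) ∈ tys X n H j x :=
        ⟨fun _ => x, fun a => (F_equiv hX H _).refl x,
          fun a b hab => absurd (by
            apply Fin.ext
            have ha : (a : ℕ) < 1 := a.2
            have hb : (b : ℕ) < 1 := b.2
            omega) hab, fun _ => rfl⟩
      have h2 : tys X n H j x = tys X' n H j y' := h
      rw [h2] at h1
      obtain ⟨z, hz1, _, hz3⟩ : ∃ z : Fin 1 → N', (∀ a, X'.F H (H - (j + 1)) y' (z a)) ∧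
        (∀ a b, a ≠ b → ¬ X'.F H (H - j) (z a) (z b)) ∧ ∀ a, X'.ty n H j (z a) = X.ty n H j x := h1
      obtain ⟨x', hx1, hx2⟩ := descend hX hX' hH hn j (by omega) x (z 0) (hz3 0).symm
      have h4 : X'.F H (H - (j + 1)) y' x' :=
        (F_equiv hX' H _).trans (hz1 0) (F_le hX' H (by omega) hx1)
      refine ⟨x', h4, fun i hi => ?_⟩
      rcases Nat.lt_or_ge i (j + 1) with h3 | h3
      · exact hx2 i (by omega)
      · obtain rfl : i = j + 1 := by omega
        rw [h]
        exact ty_class hX' hH (j + 1) h4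

/-- Piece `STEP`. -/
theorem step : S_STEP := by
  intro N N' X X' hX hX' n H hH htop α _ s s' hc hP x
  classical
  have hn : 1 ≤ n := by omega
  rcases isEmpty_or_nonempty α with hα | hα
  · let c0 : Pt0 := ⟨((0, {([], true)}), ([], true)), by simp⟩
    obtain ⟨x', _, hx2⟩ := descend hX hX' hH hn H le_rfl x (X'.nm c0) (htop _ _)
    exact ⟨x', fun _ a => isEmptyElim a, hx2⟩
  obtain ⟨i, a, hiH, hia, hmax⟩ : ∃ i a, i ≤ H ∧ X.F H i x (s a) ∧
      ∀ b, i < H → ¬ X.F H (i + 1) x (s b) := by
    let P : ℕ → Prop := fun i => ∃ a, X.F H i x (s a)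
    have hP0 : P 0 := ⟨Classical.arbitrary α, trivial⟩
    obtain ⟨a, ha⟩ := Nat.findGreatest_spec (P := P) (Nat.zero_le H) hP0
    refine ⟨Nat.findGreatest P H, a, Nat.findGreatest_le H, ha, fun b hlt hb => ?_⟩
    exact Nat.findGreatest_is_greatest (P := P) (Nat.lt_succ_self _) hlt ⟨b, hb⟩
  by_cases hiH' : i = H
  · subst hiH'
    have hxa : x = s a := (F_top hH _ _).1 hia
    refine ⟨s' a, fun l b => ?_, fun j hj => ?_⟩
    · rw [hxa]; exact hP.rel l a b
    · rw [hxa]; exact hP.ty j hj a
  have hiH2 : i < H := by omega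
  have hno : ∀ b, ¬ X.F H (i + 1) x (s b) := fun b => hmax b hiH2
  obtain ⟨j, hj⟩ : ∃ j, H = i + 1 + j := ⟨H - (i + 1), by omega⟩
  have e1 : H - (j + 1) = i := by omega
  have e2 : H - j = i + 1 := by omega
  have E := F_equiv hX H
  have E' := F_equiv hX' H
  let B := {b : α // X.F H i (s a) (s b) ∧ X.ty n H j (s b) = X.ty n H j x}
  let S : Setoid B := ⟨fun b b' => X.F H (i + 1) (s b.1) (s b'.1),
    ⟨fun b => (E _).refl _, fun h => (E _).symm h, fun h h' => (E _).trans h h'⟩⟩
  have hcB : Nat.card (Quotient S) ≤ Nat.card α :=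
    (Nat.card_le_card_of_surjective (Quotient.mk S) Quotient.mk_surjective).trans
      (Nat.card_le_card_of_injective (Subtype.val : B → α) Subtype.val_injective)
  generalize hcdef : Nat.card (Quotient S) = c at hcB
  let e : Fin c ≃ Quotient S := ((Finite.equivFin (Quotient S)).trans (finCongr hcdef)).symm
  let r : Fin c → B := fun k => (e k).out
  have hr : ∀ k k', k ≠ k' → ¬ X.F H (i + 1) (s (r k).1) (s (r k').1) := by
    intro k k' hk h
    apply hk
    have h1 : e k = e k' := by
      rw [← Quotient.out_eq (e k), ← Quotient.out_eq (e k')]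
      exact Quotient.sound h
    exact e.injective h1
  have hr2 : ∀ b : B, ∃ k, X.F H (i + 1) (s (r k).1) (s b.1) := by
    intro b
    refine ⟨e.symm (Quotient.mk S b), ?_⟩
    have h1 : S.r (e (e.symm (Quotient.mk S b))).out b := by
      rw [e.apply_symm_apply]
      exact Quotient.mk_out b
    exact h1
  have hmem : (X.ty n H j x, (⟨c + 1, by omega⟩ : Fin (n + 1))) ∈ tys X n H j (s a) := by
    have h0 : ∃ y : Fin (c + 1) → N,
      (∀ a1, X.F H (H - (j + 1)) (s a) (y a1)) ∧
      (∀ a1 b1, a1 ≠ b1 → ¬ X.F H (H - j) (y a1) (y b1)) ∧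
      ∀ a1, X.ty n H j (y a1) = X.ty n H j x := by
      rw [e1, e2]
      refine ⟨Fin.snoc (α := fun _ => N) (fun k => s (r k).1) x, ?_, ?_, ?_⟩
      · intro k
        refine Fin.lastCases ?_ (fun k => ?_) k
        · rw [Fin.snoc_last]; exact (E _).symm hia
        · rw [Fin.snoc_castSucc]; exact (r k).2.1
      · intro k
        refine Fin.lastCases ?_ (fun k => ?_) k
        · intro k'
          refine Fin.lastCases ?_ (fun k' => ?_) k'
          · intro h; exact absurd rfl h
          · intro _
            rw [Fin.snoc_last, Fin.snoc_castSucc]; exact hno _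
        · intro k'
          refine Fin.lastCases ?_ (fun k' => ?_) k'
          · intro _
            rw [Fin.snoc_last, Fin.snoc_castSucc]; exact fun h => hno _ ((E _).symm h)
          · intro h
            rw [Fin.snoc_castSucc, Fin.snoc_castSucc]
            exact hr k k' (fun hk => h (by rw [hk]))
      · intro k
        refine Fin.lastCases ?_ (fun k => ?_) k
        · rw [Fin.snoc_last]
        · rw [Fin.snoc_castSucc]; exact (r k).2.2
    exact h0
  have hty : tys X n H j (s a) = tys X' n H j (s' a) := hP.ty (j + 1) (by omega) a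
  rw [hty] at hmem
  obtain ⟨y', h1, h2, h3⟩ : ∃ y : Fin (c + 1) → N',
      (∀ a1, X'.F H (H - (j + 1)) (s' a) (y a1)) ∧
      (∀ a1 b1, a1 ≠ b1 → ¬ X'.F H (H - j) (y a1) (y b1)) ∧
      ∀ a1, X'.ty n H j (y a1) = X.ty n H j x := hmem
  rw [e1] at h1
  rw [e2] at h2
  obtain ⟨k, hk⟩ : ∃ k, ∀ b, ¬ X'.F H (i + 1) (y' k) (s' b) := by
    by_contra hcon
    push Not at hcon
    choose b hb using hcon
    have hbB : ∀ k, X.F H i (s a) (s (b k)) ∧ X.ty n H j (s (b k)) = X.ty n H j x := by
      intro k
      constructor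
      · rw [hP.rel]
        exact (E' _).trans (h1 k) (F_dec hX' H _ _ _ (hb k))
      · rw [hP.ty j (by omega), ← h3 k]
        exact (ty_class hX' hH j (by rw [e2]; exact hb k)).symm
    choose g hg using fun k => hr2 ⟨b k, hbB k⟩
    have hinj : Function.Injective g := by
      intro k k' hkk
      by_contra hne
      have h4 : X.F H (i + 1) (s (b k)) (s (b k')) := by
        have h5 := hg k
        have h6 := hg k'
        rw [← hkk] at h6
        exact (E _).trans ((E _).symm h5) h6
      rw [hP.rel] at h4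
      exact h2 k k' hne ((E' _).trans (hb k) ((E' _).trans h4 ((E' _).symm (hb k'))))
    have := Fintype.card_le_of_injective g hinj
    simp at this
  obtain ⟨x', hx1, hx2⟩ := descend hX hX' hH hn j (by omega) x (y' k) (h3 k).symm
  rw [e2] at hx1
  have hax' : X'.F H i (s' a) x' := (E' _).trans (h1 k) (F_dec hX' H _ _ _ hx1)
  refine ⟨x', fun l b => ?_, fun l hl => ?_⟩
  · rcases Nat.lt_or_ge i l with hl | hl
    · constructor
      · intro h
        exact absurd (F_le hX H hl h) (hno b)
      · intro h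
        exact absurd ((E' _).trans hx1 (F_le hX' H hl h)) (hk b)
    · have h4 : X.F H l x (s a) := F_le hX H hl hia
      have h5 : X'.F H l (s' a) x' := F_le hX' H hl hax'
      constructor
      · intro h
        have h6 : X.F H l (s a) (s b) := (E _).trans ((E _).symm h4) h
        rw [hP.rel] at h6
        exact (E' _).trans ((E' _).symm h5) h6
      · intro h
        have h6 : X'.F H l (s' a) (s' b) := (E' _).trans h5 h
        rw [← hP.rel] at h6
        exact (E _).trans h4 h6
  · rcases Nat.lt_or_ge j l with hl2 | hl2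
    · rw [ty_class hX hH l (F_le hX H (by omega : H - l ≤ i) hia), hP.ty l hl a]
      exact ty_class hX' hH l (F_le hX' H (by omega : H - l ≤ i) hax')
    · exact hx2 l hl2

end Run7.h255.BU
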